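import Pool.Agent.H799Z.SurfMain

/-! A mass-symmetric 2-type surface (a torus) lying fully in an even-dimensional hypersphere. -/

set_option autoImplicit false

namespace Pool.Agent.Results.MP_1643f9_gt.AMassSymmetricTorus

open Pool.Agent.H799Z.Surf

/-- There is a doubly periodic smooth immersion of the plane in `E⁹` lying fully in a hypersphere
`S⁸` with centre `o`, which is of 2-type with constant term equal to the centre `o`. -/
theorem result :
    ∃ (x : ℝ × ℝ → EuclideanSpace ℝ (Fin 9)) (o : EuclideanSpace ℝ (Fin 9)) (r : ℝ),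
      IsImmersion x ∧ LiesFullyIn x o r ∧ IsTwoTypeWith x o ∧
      ∀ u v : ℝ, x (u + 2 * Real.pi, v) = x (u, v) ∧ x (u, v + 2 * Real.pi) = x (u, v) :=
  ⟨X, 0, √4800, isImmersion_X, liesFully_X, isTwoType_X, periodic_X⟩

end Pool.Agent.Results.MP_1643f9_gt.AMassSymmetricTorus
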